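import Pool.Agent.H158R2.Dia.Main
import Pool.Agent.H84R2.Bab.G

/-! The polynomial diameter conjecture for `A_n` is equivalent to polynomially large balls having at
least `exp (25 n log log n)` elements. -/

namespace Pool.Agent.Results.MP_731536_al.GrowthReduction
open Equiv Equiv.Perm Finset Necf73648 Pool.Agent.H84R2.Bab

theorem connected {G : Type*} [Group G] (S : Set G) (hS : Subgroup.closure S = ⊤) :
    (cayleyGraph S).Connected := by
  have h : ∀ x : G, (cayleyGraph S).Reachable 1 x := by
    intro x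
    obtain ⟨ℓ, l, -, hl2, hl3⟩ := g_exists_len S (x := x) (by rw [hS]; exact Subgroup.mem_top x)
    obtain ⟨w, -⟩ := g_walk S l hl2 1
    rw [one_mul, hl3] at w
    exact w.reachable
  have : Nonempty G := ⟨1⟩
  exact ⟨fun x y => (h x).symm.trans (h y)⟩

theorem diam_le_card {G : Type*} [Group G] [Fintype G] (S : Set G) :
    (cayleyGraph S).diam ≤ Fintype.card G := by
  obtain ⟨u, v, huv⟩ := (cayleyGraph S).exists_dist_eq_diam
  rw [← huv]
  by_cases h : (cayleyGraph S).Reachable u v
  · obtain ⟨p, hp1, hp2⟩ := h.exists_path_of_dist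
    rw [← hp2]
    exact hp1.length_lt.le
  · rw [SimpleGraph.dist_eq_zero_of_not_reachable h]
    exact Nat.zero_le _

theorem bdd (G : Type*) [Group G] [Fintype G] :
    BddAbove { d : ℕ | ∃ S : Set G, Subgroup.closure S = ⊤ ∧ (cayleyGraph S).diam = d } := by
  refine ⟨Fintype.card G, ?_⟩
  rintro _ ⟨S, -, rfl⟩
  exact diam_le_card S

theorem groupDiam_le {G : Type*} [Group G] [Fintype G] {d : ℕ}
    (h : ∀ S : Set G, Subgroup.closure S = ⊤ → (cayleyGraph S).diam ≤ d) : groupDiam G ≤ d := by
  refine csSup_le ⟨_, Set.univ, by simp, rfl⟩ ?_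
  rintro _ ⟨S, hS, rfl⟩
  exact h S hS

theorem le_groupDiam {G : Type*} [Group G] [Fintype G] (S : Set G)
    (hS : Subgroup.closure S = ⊤) : (cayleyGraph S).diam ≤ groupDiam G :=
  le_csSup (bdd G) ⟨S, hS, rfl⟩

theorem dist_le_groupDiam {G : Type*} [Group G] [Fintype G] (S : Set G)
    (hS : Subgroup.closure S = ⊤) (x y : G) : (cayleyGraph S).dist x y ≤ groupDiam G := by
  refine le_trans ?_ (le_groupDiam S hS)
  have : Nonempty G := ⟨1⟩
  exact SimpleGraph.dist_le_diam
    (SimpleGraph.connected_iff_ediam_ne_top.1 (connected S hS))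

/-- the unconditional bound -/
theorem bound' (n : ℕ) (hn : 3 ≤ n) (G : Subgroup (Perm (Fin n)))
    (hG : alternatingGroup (Fin n) = G) (S : Set G)
    (hS : Subgroup.closure S = ⊤) (l : ℕ)
    (hl : Real.exp (25 * n * Real.log (Real.log n)) ≤
      {x : G | (cayleyGraph S).dist 1 x ≤ l}.ncard) :
    (cayleyGraph S).diam ≤ l * n ^ 50 := by
  have hcl : Subgroup.closure (G.subtype '' S) = G := by
    rw [← MonoidHom.map_closure, hS, ← MonoidHom.range_eq_map, Subgroup.range_subtype]
  have hsub : G.subtype '' {x : G | (cayleyGraph S).dist 1 x ≤ l} ⊆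
      {x | Len (G.subtype '' S) l x} := by
    rintro _ ⟨x, hx, rfl⟩
    exact (g3 G.subtype (Subgroup.subtype_injective G) S _ x).2 ((g2 S hS x).mono hx)
  have hcard : {x : G | (cayleyGraph S).dist 1 x ≤ l}.ncard ≤
      {x | Len (G.subtype '' S) l x}.ncard := by
    rw [← Set.ncard_image_of_injective _ (Subgroup.subtype_injective G)]
    exact Set.ncard_le_ncard hsub (Set.toFinite _)
  obtain ⟨-, hmain⟩ := Pool.Agent.H158R2.Dia.main hn (S := G.subtype '' S)
    (by rw [hcl, hG]) (l := l) (hl.trans (by exact_mod_cast hcard))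
  refine g1 S fun x => ?_
  exact (g3 G.subtype (Subgroup.subtype_injective G) S _ x).1
    (hmain (G.subtype x) (by rw [hcl]; exact x.2))

theorem bound (n : ℕ) (hn : 3 ≤ n) (S : Set (alternatingGroup (Fin n)))
    (hS : Subgroup.closure S = ⊤) (l : ℕ)
    (hl : Real.exp (25 * n * Real.log (Real.log n)) ≤
      {x : alternatingGroup (Fin n) | (cayleyGraph S).dist 1 x ≤ l}.ncard) :
    (cayleyGraph S).diam ≤ l * n ^ 50 :=
  bound' n hn _ rfl S hS l hl

theorem card_large : ∃ n₀ : ℕ, ∀ n : ℕ, n₀ ≤ n →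
    Real.exp (25 * n * Real.log (Real.log n)) ≤ Nat.card (alternatingGroup (Fin n)) := by
  have h1 : ∀ᶠ L : ℝ in Filter.atTop, 25 * Real.log L ≤ L - 2 := by
    have h2 := Real.isLittleO_log_id_atTop.def (c := 1 / 50) (by norm_num)
    filter_upwards [h2, Filter.eventually_ge_atTop (4 : ℝ)] with L hL hL4
    rw [Real.norm_eq_abs, id, Real.norm_eq_abs, abs_of_nonneg (by linarith : (0 : ℝ) ≤ L)] at hL
    have := le_abs_self (Real.log L)
    linarith
  have h3 : ∀ᶠ n : ℕ in Filter.atTop, 25 * Real.log (Real.log n) ≤ Real.log n - 2 :=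
    (Real.tendsto_log_atTop.comp tendsto_natCast_atTop_atTop).eventually h1
  obtain ⟨n₀, hn₀⟩ := Filter.eventually_atTop.1 h3
  refine ⟨n₀ + 3, fun n hn => ?_⟩
  have hL := hn₀ n (by omega)
  have hn0 : (0 : ℝ) < n := by exact_mod_cast (by omega : 0 < n)
  have hnt : Nontrivial (Fin n) := Fin.nontrivial_iff_two_le.2 (by omega)
  have h1 : 2 * Nat.card (alternatingGroup (Fin n)) = n.factorial := by
    rw [two_mul_nat_card_alternatingGroup, Nat.card_perm, Nat.card_eq_fintype_card,
      Fintype.card_fin]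
  have h3 : (n : ℝ) ^ n / n.factorial ≤ Real.exp n := Real.pow_div_factorial_le_exp _ hn0.le n
  have hf : (0 : ℝ) < n.factorial := by exact_mod_cast Nat.factorial_pos n
  rw [div_le_iff₀ hf] at h3
  have h4 : (2 : ℝ) * Nat.card (alternatingGroup (Fin n)) = n.factorial := by exact_mod_cast h1
  rw [← h4] at h3
  have h5 : (n : ℝ) ^ n = Real.exp (n * Real.log n) := by
    rw [mul_comm, Real.exp_mul, Real.exp_log hn0, Real.rpow_natCast]
  rw [h5] at h3
  have h6 : (2 : ℝ) ≤ Real.exp 1 := by
    have := Real.add_one_le_exp (1 : ℝ)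
    linarith
  have h7 : Real.exp (n * Real.log n) ≤
      Real.exp (n + 1) * Nat.card (alternatingGroup (Fin n)) := by
    refine h3.trans ?_
    rw [Real.exp_add, mul_assoc]
    gcongr
  have h8 : Real.exp (n * Real.log n - (n + 1)) ≤ Nat.card (alternatingGroup (Fin n)) := by
    rw [Real.exp_sub, div_le_iff₀ (Real.exp_pos _)]
    refine h7.trans_eq (mul_comm _ _)
  refine le_trans (Real.exp_le_exp.2 ?_) h8
  have h9 : (3 : ℝ) ≤ n := by exact_mod_cast (by omega : 3 ≤ n)
  nlinarith

/-- (1) For every generating set `S` of `A_n`: if the ball of radius `l` in the Cayley graph has at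
least `exp (25 n log log n)` elements, the diameter is at most `l * n ^ 50`.
(2) Hence the Babai-Seress conjecture for `A_n` is equivalent to the statement that, for some
constant `C` and all large `n`, every ball of radius `n ^ C` has at least `exp (25 n log log n)`
elements. -/
theorem result :
    (∀ n : ℕ, 3 ≤ n → ∀ S : Set (alternatingGroup (Fin n)), Subgroup.closure S = ⊤ → ∀ l : ℕ,
      Real.exp (25 * n * Real.log (Real.log n)) ≤
        {x : alternatingGroup (Fin n) | (cayleyGraph S).dist 1 x ≤ l}.ncard →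
      (cayleyGraph S).diam ≤ l * n ^ 50) ∧
    ((∃ C : ℕ, ∀ n : ℕ, (groupDiam (alternatingGroup (Fin n)) : ℝ) ≤ (n : ℝ) ^ C) ↔
      ∃ C n₀ : ℕ, ∀ n : ℕ, n₀ ≤ n → ∀ S : Set (alternatingGroup (Fin n)),
        Subgroup.closure S = ⊤ → Real.exp (25 * n * Real.log (Real.log n)) ≤
          {x : alternatingGroup (Fin n) | (cayleyGraph S).dist 1 x ≤ n ^ C}.ncard) := by
  refine ⟨bound, ?_, ?_⟩
  · rintro ⟨C, hC⟩
    obtain ⟨n₀, hn₀⟩ := card_large
    refine ⟨C, n₀, fun n hn S hS => (hn₀ n hn).trans ?_⟩
    have h1 : {x : alternatingGroup (Fin n) | (cayleyGraph S).dist 1 x ≤ n ^ C} = Set.univ := by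
      refine Set.eq_univ_of_forall fun x => ?_
      have h2 : groupDiam (alternatingGroup (Fin n)) ≤ n ^ C := by exact_mod_cast hC n
      exact (dist_le_groupDiam S hS 1 x).trans h2
    rw [h1, Set.ncard_univ]
  · rintro ⟨C, n₀, h⟩
    refine ⟨C + 50 + n₀ + 3, fun n => ?_⟩
    have key : groupDiam (alternatingGroup (Fin n)) ≤ n ^ (C + 50 + n₀ + 3) := by
      rcases Nat.eq_zero_or_pos n with h0 | h0
      · subst h0
        refine (groupDiam_le (d := 0) fun S _ => ?_).trans (Nat.zero_le _)
        obtain ⟨u, v, huv⟩ := (cayleyGraph S).exists_dist_eq_diam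
        rw [← huv, Subsingleton.elim u v, SimpleGraph.dist_self]
      · by_cases hn : n₀ ≤ n ∧ 3 ≤ n
        · refine groupDiam_le fun S hS => ?_
          refine (bound n hn.2 S hS (n ^ C) (h n hn.1 S hS)).trans ?_
          rw [← pow_add]
          exact Nat.pow_le_pow_right h0 (by omega)
        · refine groupDiam_le fun S _ => (diam_le_card S).trans ?_
          have h2 : Fintype.card (alternatingGroup (Fin n)) ≤ n.factorial := by
            have := Fintype.card_le_of_injective _ (Subgroup.subtype_injective (alternatingGroup (Fin n)))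
            rwa [Fintype.card_perm, Fintype.card_fin] at this
          refine h2.trans ((Nat.factorial_le_pow n).trans ?_)
          refine Nat.pow_le_pow_right h0 ?_
          by_contra h3
          exact hn (by omega)
    exact_mod_cast key

end Pool.Agent.Results.MP_731536_al.GrowthReduction
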